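import Pool.Agent.H23R2.Ch.Cycle2

/-!
# Vanishing of the higher Chern characters of projective modules over group rings

Let `G` be a group, `k` a commutative ring and `M` a `k`-module which is `p`-adically separated
for some prime `p` such that `G` has no element of order `p` (for instance: `G` any torsion-free
group, `M = ℤ` or `M = k = ℤ/p`).

Let `(Ω, δ, T)` be a cycle (in the sense of A. Connes) of even dimension `2n ≥ 2` over the group
algebra `k[G]`, with values in `M`, such that `T(g₀ δg₁ ⋯ δg₂ₙ) = 0` whenever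
`g = g₀ g₁ ⋯ g₂ₙ ≠ 1` is conjugate to one of the powers `g ^ (p ^ j)`, `j ≥ 1`, for every prime
`p` for which `M` is `p`-adically separated.  This holds for all cycles localized at the
identity element, that is, for all cyclic cocycles coming from the cohomology of the group `G`.

Then the pairing of the cycle with the class in `K₀(k[G])` of any idempotent matrix `e`
satisfies `binom(2n, n) T(tr(e (δe)^(2n))) = 0`.
-/

set_option autoImplicit false

namespace Pool.Agent.Results.MP_551055_al.EvenCycles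

open Pool.Agent.H23R2.Ch

theorem result {k : Type*} [CommRing k] {G : Type*} [Group G] {M : Type*} [AddCommGroup M]
    [Module k M]
    (hG : ∃ p : ℕ, p.Prime ∧ Sep M p ∧ ∀ g : G, g ^ p = 1 → g = 1)
    {Ω : Type*} [Ring Ω] [Algebra k Ω] (𝒜 : ℕ → Submodule k Ω) [GradedAlgebra 𝒜]
    (δ : Ω →ₗ[k] Ω) (T : Ω →ₗ[k] M) (n : ℕ) (hn : 1 ≤ n) (hcyc : IsCycle (2 * n) 𝒜 δ T)
    (ρ : MonoidAlgebra k G →ₐ[k] Ω) (hρ : ∀ a, ρ a ∈ 𝒜 0)
    (hloc : ∀ g : G, g ≠ 1 →
      (∀ p : ℕ, p.Prime → Sep M p → ∃ j, 1 ≤ j ∧ IsConj g (g ^ p ^ j)) →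
      ∀ (g₀ : G) (l : List G), l.length = 2 * n → g₀ * l.prod = g →
        T (ρ (MonoidAlgebra.single g₀ 1) *
          (l.map fun h => δ (ρ (MonoidAlgebra.single h 1))).prod) = 0)
    (r : ℕ) (e : Matrix (Fin r) (Fin r) (MonoidAlgebra k G)) (he : e * e = e) :
    (Nat.centralBinom n) • T ((e.map ρ) * ((e.map ρ).map δ) ^ (2 * n)).trace = 0 :=
  cycle_vanish hG hn hcyc hρ hloc e he

end Pool.Agent.Results.MP_551055_al.EvenCycles
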