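import Pool.Agent.H23R2.Ch.Cycle2
import Pool.Agent.H23R2.Lin

/-!
# The Chern character of projective modules over group rings of torsion-free linear groups

Let `G` be a torsion-free group which is linear over a field of characteristic zero, `k` a
commutative ring, `M` a `k`-module which is `p`-adically separated for infinitely many primes
`p` (for example `M = k = ℤ`).  Then every cycle of dimension `2n ≥ 2` over `k[G]` with values in
`M` satisfies `binom(2n, n) T(tr(e (δe)^(2n))) = 0` for every idempotent matrix `e` over `k[G]`.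
-/

set_option autoImplicit false

namespace Pool.Agent.Results.MP_551055_al.LinearGroups

open Pool.Agent.H23R2.Ch Pool.Agent.H23R2

lemma power_of_conj {H : Type*} [Group H] (g : H) (q : ℕ) (h : IsConj g (g ^ q)) (i : ℕ) :
    ∃ z, IsConj z g ∧ z ^ q ^ i = g := by
  induction i with
  | zero => exact ⟨g, IsConj.refl g, by simp⟩
  | succ i ih =>
    obtain ⟨z, hz, hzg⟩ := ih
    obtain ⟨u, hu⟩ := isConj_iff.mp hz
    obtain ⟨x, hx⟩ := isConj_iff.mp h
    -- `u * z * u⁻¹ = g`, `x * g * x⁻¹ = g ^ q`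
    have e1 : g = (x⁻¹ * g * x) ^ q := by
      have h1 : (x⁻¹ * g * x) ^ q = x⁻¹ * g ^ q * x := by
        have := conj_pow (a := x⁻¹) (b := g) (i := q)
        simpa using this
      rw [h1, ← hx]
      group
    have e2 : z = u⁻¹ * g * u := by
      rw [← hu]; group
    refine ⟨u⁻¹ * (x⁻¹ * g * x) * u, ?_, ?_⟩
    · rw [isConj_iff]
      exact ⟨x * u, by group⟩
    · have h1 : (u⁻¹ * (x⁻¹ * g * x) * u) ^ q = z := by
        have := conj_pow (a := u⁻¹) (b := x⁻¹ * g * x) (i := q)
        rw [inv_inv, ← e1] at this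
        rw [this, e2]
      rw [pow_succ', pow_mul, h1, hzg]

theorem result {G : Type*} [Group G] (htf : ∀ g : G, ∀ m : ℕ, 0 < m → g ^ m = 1 → g = 1)
    {K : Type*} [Field K] [CharZero K] (N : ℕ) (φ : G →* GL (Fin N) K)
    (hφ : Function.Injective φ)
    {k : Type*} [CommRing k] {M : Type*} [AddCommGroup M] [Module k M]
    (hM : {p : ℕ | p.Prime ∧ Sep M p}.Infinite)
    {Ω : Type*} [Ring Ω] [Algebra k Ω] (𝒜 : ℕ → Submodule k Ω) [GradedAlgebra 𝒜]
    (δ : Ω →ₗ[k] Ω) (T : Ω →ₗ[k] M) (n : ℕ) (hn : 1 ≤ n) (hcyc : IsCycle (2 * n) 𝒜 δ T)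
    (ρ : MonoidAlgebra k G →ₐ[k] Ω) (hρ : ∀ a, ρ a ∈ 𝒜 0)
    (r : ℕ) (e : Matrix (Fin r) (Fin r) (MonoidAlgebra k G)) (he : e * e = e) :
    (Nat.centralBinom n) • T ((e.map ρ) * ((e.map ρ).map δ) ^ (2 * n)).trace = 0 := by
  classical
  let S : Finset G := msupp e
  let H : Subgroup G := Subgroup.closure (S : Set G)
  have : Group.FG H := (Group.fg_iff_subgroup_fg H).2 ⟨S, rfl⟩
  have hfin := finite_bad_primes (H := H)
      (by
        intro g k hk hg
        apply Subtype.ext
        exact htf g.1 k hk (by simpa using congrArg Subtype.val hg))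
      (φ.comp H.subtype) (hφ.comp H.subtype_injective)
  have hgood : ∃ p : ℕ, (p.Prime ∧ Sep M p) ∧ GoodPrime H p := by
    by_contra hcon
    push Not at hcon
    apply hM
    refine hfin.subset ?_
    rintro p ⟨hp, hs⟩
    exact ⟨hp, hcon p ⟨hp, hs⟩⟩
  obtain ⟨p, ⟨hp, hs⟩, hgp⟩ := hgood
  let j : MonoidAlgebra k H →ₐ[k] MonoidAlgebra k G :=
    MonoidAlgebra.mapDomainAlgHom k k H.subtype
  have hj : Function.Injective j := MonoidAlgebra.mapDomain_injective H.subtype_injective
  let eH : Matrix (Fin r) (Fin r) (MonoidAlgebra k H) := Matrix.of fun a b =>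
    MonoidAlgebra.comapDomain H.subtype H.subtype_injective (e a b)
  have heH : eH.map j = e := by
    ext1 a b
    simp only [Matrix.map_apply, eH, Matrix.of_apply]
    refine MonoidAlgebra.mapDomain_comapDomain ?_ _
    intro g hg
    refine ⟨⟨g, Subgroup.subset_closure ?_⟩, rfl⟩
    exact mem_msupp e a b g (by simpa using hg)
  have heH2 : eH * eH = eH := by
    have h1 : (eH * eH).map j = eH.map j := by
      rw [Matrix.map_mul, heH, he]
    ext1 a b
    apply hj
    have := congrFun (congrFun h1 a) b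
    simpa using this
  have hmain := cycle_vanish (G := H) (M := M) (k := k) (δ := δ) (T := T) (𝒜 := 𝒜)
    (ρ := ρ.comp j)
    ⟨p, hp, hs, fun g hg => by
      apply Subtype.ext
      exact htf g.1 p hp.pos (by simpa using congrArg Subtype.val hg)⟩
    hn hcyc (fun a => hρ _)
    (by
      intro g hg hbad
      exfalso
      obtain ⟨i, hi, hconj⟩ := hbad p hp hs
      obtain ⟨t, ht⟩ := hgp.div g hg
      obtain ⟨z, _, hz⟩ := power_of_conj g (p ^ i) hconj t
      apply ht (z ^ p ^ ((i - 1) * t))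
      rw [← pow_mul, ← pow_add, ← hz, ← pow_mul]
      congr 2
      rw [← Nat.succ_pred_eq_of_pos hi]
      simp
      ring)
    eH heH2
  have h2 : eH.map (ρ.comp j) = e.map ρ := by
    rw [← heH]
    ext1 a b
    simp
  rw [h2] at hmain
  exact hmain

end Pool.Agent.Results.MP_551055_al.LinearGroups
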