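import Mathlib
import Pool.Agent.H26R2.Perf.Stab
import Pool.Agent.H26R2.Kadison.Local

/-!
Stable freeness of projective modules over integral group rings and numbers of generators.
-/

set_option autoImplicit false

namespace Pool.Agent.Results.MP_551055_al.RankRigidity

open Pool.Agent.H26R2.Perf (RankRigid StablyFree StablyRankGenerated ZSeries ResFinite NoQ)
open Pool.Agent.H26R2.Kadison (Source)

universe v w

/-- `RankRigid G`: every surjective homomorphism `P → P'` between finitely generated projective
`ℤ[G]`-modules with `P/IP ≅ P'/IP'` (as abelian groups, `I` the augmentation ideal) is bijective.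
`StablyFree G P`: `P ⊕ ℤ[G]^n ≅ ℤ[G]^m` for some `n`, `m`. `StablyRankGenerated G P`: for some `n`,
`m` the module `P ⊕ ℤ[G]^n` is generated by `m` elements, and its quotient by the augmentation ideal
is isomorphic to that of `ℤ[G]^m` (which is `ℤ^m`).

(1) If `RankRigid G`, then a finitely generated projective `ℤ[G]`-module is stably free if and only
if it is `StablyRankGenerated`.
(2) `RankRigid (G/N)` implies `RankRigid G` for all normal subgroups `N` with `ZSeries N`: `N` has a
finite series of normal subgroups of `G` whose factors `F` satisfy `NoQ` (for every sequence in `F`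
with `b (i+1) ^ (i+1) = b i` the element `b 0` has finite order; for torsion-free `F` this says that
`F` has no subgroup isomorphic to the additive group of `ℚ`) or are such that every nontrivial
finitely generated subgroup has a nonzero homomorphism to `ℚ`. Nothing else is assumed on `G/N`.
(3) `ZSeries G` implies `RankRigid G`, and `RankRigid G` holds if `RankRigid H` holds for all
finitely generated subgroups `H` of `G`.
(4) `NoQ A` holds if `A` is residually finite, or finitely generated and linear over a field of
characteristic zero, or virtually residually `p` for infinitely many primes `p`, or satisfies the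
ascending chain condition on cyclic subgroups. -/
theorem result :
    (∀ (G : Type v) [Group G], RankRigid G → ∀ (P : Type v) [AddCommGroup P]
      [Module (MonoidAlgebra ℤ G) P], Module.Finite (MonoidAlgebra ℤ G) P →
      Module.Projective (MonoidAlgebra ℤ G) P → (StablyFree G P ↔ StablyRankGenerated G P)) ∧
    (∀ (G : Type v) [Group G] (N : Subgroup G) [N.Normal], ZSeries N →
      RankRigid (G ⧸ N) → RankRigid G) ∧
    ((∀ (G : Type v) [Group G], ZSeries (⊤ : Subgroup G) → RankRigid G) ∧
      ∀ (G : Type v) [Group G], (∀ H : Subgroup G, H.FG → RankRigid H) → RankRigid G) ∧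
    (∀ (A : Type v) [Group A], (ResFinite A ∨ Source.{v, w} A) → NoQ A) := by
  refine ⟨?_, ?_, ⟨?_, ?_⟩, ?_⟩
  · intro G _ hG P _ _ _ hproj
    exact Pool.Agent.H26R2.Perf.stablyFree_iff
      (Pool.Agent.H26R2.Perf.noPerfect_of_rankRigid hG) P hproj
  · intro G _ N _ hN hQ
    rw [Pool.Agent.H26R2.Perf.rankRigid_iff] at hQ ⊢
    exact Pool.Agent.H26R2.Perf.noPerfect_of_detZ N (Pool.Agent.H26R2.Perf.detZ_of_series N hN) hQ
  · intro G _ h
    rw [Pool.Agent.H26R2.Perf.rankRigid_iff]
    exact Pool.Agent.H26R2.Perf.noPerfect_of_top h
  · intro G _ h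
    rw [Pool.Agent.H26R2.Perf.rankRigid_iff]
    exact Pool.Agent.H26R2.Perf.noPerfect_local
      (fun H hH => Pool.Agent.H26R2.Perf.rankRigid_iff.1 (h H hH))
  · rintro A _ (h | h)
    · exact Pool.Agent.H26R2.Perf.noQ_of_resFinite h
    · exact Pool.Agent.H26R2.Perf.noQ_of_chainFin
        (Pool.Agent.H26R2.Kadison.chainFin_of_source A h)

end Pool.Agent.Results.MP_551055_al.RankRigidity
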